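import Pool.Agent.OrientedForcing.AlmostAll

/-!
# Few graphs have a small maximum oriented `k`-forcing number
-/

open OrientedForcing
open scoped Classical

set_option autoImplicit false

namespace Pool.Agent.Results.MP_7c536e_co.AlmostAllGraphs

/-- At most `2^N n^(2n) (3/4)^d` of the graphs on the vertex set `V`, `|V| = n`, have
`MOF_k(G) ≤ s`, where `N` is the number of pairs of vertices and `2 k d ≤ (n - s)(n - s + 1)`. -/
theorem result (V : Type) [Fintype V] [Nonempty V] (k s d : ℕ) (hk : 1 ≤ k)
    (hd : 2 * k * d ≤ (Fintype.card V - s) * (Fintype.card V - s + 1)) :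
    (((Finset.univ : Finset (SimpleGraph V)).filter (fun G => ¬ s + 1 ≤ MOF G k)).card : ℝ) ≤
      2 ^ (allPairs V).card * ((Fintype.card V : ℝ) ^ (2 * Fintype.card V) * (3 / 4) ^ d) :=
  bad_card hk hd

end Pool.Agent.Results.MP_7c536e_co.AlmostAllGraphs
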