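import Pool.Agent.OrientedForcing.Basic

/-!
# `MOF_k(G) ≥ ⌈n / (k + 1)⌉` for comparability graphs

Orient a comparability graph transitively. If a coloured vertex `u` forces `w`, all out-neighbours
of `w` are out-neighbours of `u`, hence coloured after this force; so a forced vertex never forces,
every force is made by a vertex of the initial set, and such a vertex forces once, at most `k`
vertices. Vertices outside an induced comparability graph are made to receive all arcs from it.
-/

open OrientedForcing

set_option autoImplicit false

namespace Pool.Agent.Results.MP_7c536e_co.ComparabilityGraphs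

/-- `MOF_k(G) ≥ ⌈|W| / (k + 1)⌉` whenever `W` induces a comparability graph in `G`; in particular
the inequality of Q1 holds for every comparability graph `G` and every `k`. -/
theorem result :
    (∀ (V : Type) [Fintype V] (G : SimpleGraph V) (W : Finset V), InducesComparability G W →
      ∀ k : ℕ, 1 ≤ k → ⌈(W.card : ℚ) / (k + 1)⌉₊ ≤ MOF G k) ∧
    (∀ (V : Type) [Fintype V] (G : SimpleGraph V), InducesComparability G Finset.univ →
      ∀ k : ℕ, 1 ≤ k → ⌈(Fintype.card V : ℚ) / (k + 1)⌉₊ ≤ MOF G k) := by
  have key : ∀ (V : Type) [Fintype V] (G : SimpleGraph V) (W : Finset V),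
      InducesComparability G W → ∀ k : ℕ, 1 ≤ k →
        ⌈(W.card : ℚ) / (k + 1)⌉₊ ≤ MOF G k := by
    intro V _ G W hW k _
    rw [Nat.ceil_le, div_le_iff₀ (by positivity)]
    rcases isEmpty_or_nonempty V with hV | hV
    · have : W.card = 0 := by
        rw [Finset.card_eq_zero]
        exact Finset.eq_empty_of_isEmpty W
      rw [this]
      push_cast
      positivity
    · have h := card_le_MOF G W hW k
      calc (W.card : ℚ) ≤ (((k + 1) * MOF G k : ℕ) : ℚ) := by exact_mod_cast h
        _ = (MOF G k : ℚ) * (k + 1) := by push_cast; ring
  refine ⟨key, fun V _ G h k hk => ?_⟩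
  have := key V G Finset.univ h k hk
  rwa [Finset.card_univ] at this

end Pool.Agent.Results.MP_7c536e_co.ComparabilityGraphs
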