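import Pool.Agent.OrientedForcing.DenseReal

/-!
# `MOF_k(G) ≥ ⌈n / (k + 1)⌉` for dense graphs

If an orientation of `G` has a `k`-forcing set of size at most `s`, a chronological list of forces
(times and forcing vertices: at most `n^(2n)` lists) determines the direction of all but few arcs:
when `w` is coloured by `u`, all arcs between `u` and the vertices coloured not before `w` are
known. These are at least `m (m + 1) / (2 k)` pairs, `m = n - s`. So if `G` misses few edges, the
number `2^e` of orientations exceeds the number of orientations with such a forcing set.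
-/

open OrientedForcing

set_option autoImplicit false

namespace Pool.Agent.Results.MP_7c536e_co.DenseGraphs

/-- (1) A general lower bound for `MOF_k`; (2) the inequality of Q1 for all graphs with
`ē + 2 n log₂ n + 1 ≤ k n² / (2 (k + 1)²)`, where `ē` is the number of edges of the complement;
(3) for every `k` and `ε > 0` the inequality of Q1 for all large graphs with at most
`(k / (2 (k + 1)²) - ε) n²` missing edges. -/
theorem result :
    (∀ (V : Type) [Fintype V] [Nonempty V] (G : SimpleGraph V) (k s d : ℕ), 1 ≤ k →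
      2 * k * d ≤ (Fintype.card V - s) * (Fintype.card V - s + 1) →
      (Gᶜ.edgeSet.ncard : ℝ) + 2 * Fintype.card V * Real.logb 2 (Fintype.card V) < d →
      s + 1 ≤ MOF G k) ∧
    (∀ (V : Type) [Fintype V] (G : SimpleGraph V) (k : ℕ), 1 ≤ k →
      (Gᶜ.edgeSet.ncard : ℝ) + 2 * Fintype.card V * Real.logb 2 (Fintype.card V) + 1 ≤
        k * (Fintype.card V : ℝ) ^ 2 / (2 * (k + 1) ^ 2) →
      ⌈(Fintype.card V : ℚ) / (k + 1)⌉₊ ≤ MOF G k) ∧
    (∀ k : ℕ, 1 ≤ k → ∀ ε : ℝ, 0 < ε →
      ∃ N : ℕ, ∀ (V : Type) [Fintype V] (G : SimpleGraph V), N ≤ Fintype.card V →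
        (Gᶜ.edgeSet.ncard : ℝ) ≤ (k / (2 * (k + 1) ^ 2) - ε) * (Fintype.card V : ℝ) ^ 2 →
        ⌈(Fintype.card V : ℚ) / (k + 1)⌉₊ ≤ MOF G k) :=
  ⟨fun _ _ _ G _ _ _ hk hd h => counting_real G hk hd h, fun _ _ G _ hk h => dense G hk h,
    fun _ hk _ hε => dense_eventually hk hε⟩

end Pool.Agent.Results.MP_7c536e_co.DenseGraphs
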