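import Pool.Agent.OrientedForcing.Holes

/-!
# `MOF_k(G) ≥ ⌈n / (k + 1)⌉` for graphs without sparse pairs of large vertex sets

If an orientation of `G` has a `k`-forcing set of size at most `s`, let `A` be the set of the
vertices forcing in the first half of the process and `B` the set of the vertices coloured in the
second half. The list of forces (at most `n^(2n)` lists) determines the direction of all edges
between `A` and `B`; if there are more than `2 n log₂ n` of them for all possible `A`, `B`, the
number `2^e` of orientations exceeds the number of orientations with such a forcing set.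
-/

open OrientedForcing

set_option autoImplicit false

namespace Pool.Agent.Results.MP_7c536e_co.NoSparsePairs

/-- (1) If any two disjoint vertex sets `A`, `B` with `2 k |A| ≥ n - s` and `2 |B| ≥ n - s` have
more than `2 n log₂ n` edges between them, then `MOF_k(G) ≥ s + 1`. (2) The inequality of Q1 holds
if any two disjoint vertex sets with more than `n / (2 (k + 1))` and more than `k n / (2 (k + 1))`
vertices have more than `2 n log₂ n` edges between them. -/
theorem result :
    (∀ (V : Type) [Fintype V] [Nonempty V] (G : SimpleGraph V) (k s : ℕ), 1 ≤ k →
      (∀ A B : Finset V, Disjoint A B → Fintype.card V - s ≤ 2 * k * A.card →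
        Fintype.card V - s ≤ 2 * B.card →
        2 * Fintype.card V * Real.logb 2 (Fintype.card V) < crossEdges G A B) →
      s + 1 ≤ MOF G k) ∧
    (∀ (V : Type) [Fintype V] (G : SimpleGraph V) (k : ℕ), 1 ≤ k →
      (∀ A B : Finset V, Disjoint A B →
        (Fintype.card V : ℝ) / (2 * (k + 1)) < A.card →
        k * (Fintype.card V : ℝ) / (2 * (k + 1)) < B.card →
        2 * Fintype.card V * Real.logb 2 (Fintype.card V) < crossEdges G A B) →
      ⌈(Fintype.card V : ℚ) / (k + 1)⌉₊ ≤ MOF G k) :=
  ⟨fun _ _ _ G _ _ _ h => counting_real' G h, fun _ _ G _ hk h => no_sparse_pair G hk h⟩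

end Pool.Agent.Results.MP_7c536e_co.NoSparsePairs
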